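import Pool.Agent.X248.CD.Main

/-!
# Recognising comparability digraphs is NP-complete

A linear order is a comparability ordering exactly when, for all arcs `ab` and `bc` such that `ac`
is not an arc and `a ≠ c`, the vertex `b` is not between `a` and `c`. Constraints of the form `b` is
not between `a` and `c`, for elements of a set `U`, are simulated as follows: `U` induces a complete
symmetric digraph, and each constraint has vertices `a'`, `b'`, `c'` with the arcs `a'b'` and `b'c'`
and with arcs from all elements of `U` except `a`, `b` and `c`, respectively. Then no element is
between `a` and `a'`, and so on, and the order of `a'`, `b'`, `c'` must agree with the order of `a`,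
`b`, `c`. The constraints express betweenness, and hence 3SAT.
-/

set_option autoImplicit false

namespace Pool.Agent.Results.MP_8b4e11_lc.CompDigraphNPC

open Pool.Agent.NPC Pool.Agent.X248 Pool.Agent.X248.CD

/-- **Recognising comparability digraphs is NP-complete.** Hence it can be done in polynomial time
if and only if `P = NP`. -/
theorem result :
    (InNPP (fun M : List (List Bool) => IsCompDigraph (arc M)) ∧
      NPHardP (fun M : List (List Bool) => IsCompDigraph (arc M))) ∧
    (InPP (fun M : List (List Bool) => IsCompDigraph (arc M)) ↔
      ∀ L : Set (List Bool), InNP L → InP L) :=
  ⟨⟨inNP, hardI_comp.toNPHardP⟩, np_inP_iff inNP hardI_comp.toNPHardP⟩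

end Pool.Agent.Results.MP_8b4e11_lc.CompDigraphNPC
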